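import Mathlib

namespace Pool.Agent.Results.MP_5f6a82_al.Counter

open SkewPolynomial

abbrev R := FreeAlgebra ℤ ℕ

noncomputable def sh : ℕ → R
  | 0 => 0
  | i + 1 => FreeAlgebra.ι ℤ i

noncomputable def σ : R →ₐ[ℤ] R := FreeAlgebra.lift ℤ sh
noncomputable def ε : R →ₐ[ℤ] ℤ := FreeAlgebra.lift ℤ fun _ => 0

noncomputable instance act : MulSemiringAction (Multiplicative ℕ) R where
  smul n r := (σ ^ n.toAdd) r
  one_smul r := by show (σ ^ 0) r = r; simp
  mul_smul a b r := by
    show (σ ^ (a.toAdd + b.toAdd)) r = (σ ^ a.toAdd) ((σ ^ b.toAdd) r)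
    rw [pow_add, AlgHom.mul_apply]
  smul_zero a := map_zero (σ ^ a.toAdd)
  smul_add a := map_add (σ ^ a.toAdd)
  smul_one a := map_one (σ ^ a.toAdd)
  smul_mul a := map_mul (σ ^ a.toAdd)

lemma smul_def (n : Multiplicative ℕ) (r : R) : n • r = (σ ^ n.toAdd) r := rfl

lemma phi_it (k : ℕ) (r : R) : (φ (R := R))^[k] r = (σ ^ k) r := by
  rw [φ_iterate_apply]; rfl

lemma sig_surj : Function.Surjective σ := by
  intro r
  refine ⟨FreeAlgebra.lift ℤ (fun i => FreeAlgebra.ι ℤ (i + 1)) r, ?_⟩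
  have : σ.comp (FreeAlgebra.lift ℤ fun i => (FreeAlgebra.ι ℤ (i + 1) : R)) = AlgHom.id ℤ R := by
    ext i; simp [σ, sh]
  exact DFunLike.congr_fun this r

lemma eps_sig (k : ℕ) (r : R) : ε ((σ ^ k) r) = ε r := by
  have h : ε.comp σ = ε := by
    ext i; cases i <;> simp [σ, ε, sh]
  induction k with
  | zero => simp
  | succ k ih => rw [pow_succ', AlgHom.mul_apply, ← ih]; exact DFunLike.congr_fun h _

lemma kill_gen (i k : ℕ) (h : i < k) : (σ ^ k) (FreeAlgebra.ι ℤ i) = 0 := by
  induction i generalizing k with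
  | zero =>
    obtain ⟨j, rfl⟩ : ∃ j, k = j + 1 := ⟨k - 1, by omega⟩
    rw [pow_succ, AlgHom.mul_apply]; simp [σ, sh]
  | succ i ih =>
    obtain ⟨j, rfl⟩ : ∃ j, k = j + 1 := ⟨k - 1, by omega⟩
    rw [pow_succ, AlgHom.mul_apply]
    have : σ (FreeAlgebra.ι ℤ (i + 1)) = FreeAlgebra.ι ℤ i := by simp [σ, sh]
    rw [this]; exact ih j (by omega)

lemma ev (r : R) : ∃ m, ∀ k, m ≤ k → (σ ^ k) r = ((ε r : ℤ) : R) := by
  induction r using FreeAlgebra.induction with
  | grade0 c => exact ⟨0, fun k _ => by simp⟩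
  | grade1 i => exact ⟨i + 1, fun k hk => by rw [kill_gen i k hk]; simp [ε]⟩
  | mul a b ha hb =>
    obtain ⟨m, hm⟩ := ha
    obtain ⟨n, hn⟩ := hb
    exact ⟨m + n, fun k hk => by rw [map_mul, hm k (by omega), hn k (by omega)]; simp⟩
  | add a b ha hb =>
    obtain ⟨m, hm⟩ := ha
    obtain ⟨n, hn⟩ := hb
    exact ⟨m + n, fun k hk => by rw [map_add, hm k (by omega), hn k (by omega)]; simp⟩

abbrev A := SkewPolynomial R

noncomputable def π : A →+* Polynomial ℤ :=
  SkewMonoidAlgebra.liftNCRingHom (Polynomial.C.comp (ε : R →+* ℤ))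
    (powersHom (Polynomial ℤ) Polynomial.X) (by
      intro x y
      rw [smul_def, mul_comm]
      exact congrArg (fun c : ℤ => _ * Polynomial.C c) (eps_sig _ x))

lemma pi_mono (n : ℕ) (r : R) : π (monomial n r) = Polynomial.C (ε r) * Polynomial.X ^ n := by
  have := SkewMonoidAlgebra.liftNC_single
    ((Polynomial.C.comp (ε : R →+* ℤ) : R →+* Polynomial ℤ) : R →+ Polynomial ℤ)
    (powersHom (Polynomial ℤ) Polynomial.X) (Multiplicative.ofAdd n) r
  exact this

noncomputable def s : Polynomial ℤ →ₐ[ℤ] A := Polynomial.aeval (X : A)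

lemma pi_X : π (X : A) = Polynomial.X := by
  rw [← monomial_one_one_eq_X, pi_mono]; simp

lemma pi_s (v : Polynomial ℤ) : π (s v) = v := by
  induction v using Polynomial.induction_on' with
  | add p q hp hq => rw [map_add, map_add, hp, hq]
  | monomial n c =>
    simp [s, Polynomial.aeval_monomial, pi_X, ← Polynomial.C_mul_X_pow_eq_monomial]

lemma key (p : A) : ∃ m, ∀ k, m ≤ k → (X : A) ^ k * p = X ^ k * s (π p) := by
  induction p using SkewPolynomial.induction with
  | h0 => exact ⟨0, fun k _ => by simp⟩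
  | ha n r q _ _ ih =>
    obtain ⟨m, hm⟩ := ih
    obtain ⟨l, hl⟩ := ev r
    refine ⟨m + l, fun k hk => ?_⟩
    rw [map_add, map_add, mul_add, mul_add, hm k (by omega), pi_mono]
    congr 1
    have h1 : s (Polynomial.C (ε r) * Polynomial.X ^ n) = monomial n ((ε r : ℤ) : R) := by
      rw [← C_mul_X_pow_eq_monomial, ← CRingHom_eq_C]
      simp [s]
    rw [h1, X_pow_mul_monomial, X_pow_mul_monomial, phi_it, phi_it, hl k (by omega)]
    simp

lemma srcA : StrongRankCondition A := by
  rw [strongRankCondition_iff_succ]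
  intro n f hf
  let g : (Fin (n + 1) → Polynomial ℤ) →ₗ[Polynomial ℤ] (Fin n → Polynomial ℤ) :=
    Matrix.vecMulLinear (Matrix.of fun i j => π (f (Pi.single i 1) j))
  have hg := (strongRankCondition_iff_succ (Polynomial ℤ)).1 inferInstance n g
  apply hg
  rw [injective_iff_map_eq_zero]
  intro v hv
  have hw : ∀ j, π (f (fun i => s (v i)) j) = 0 := by
    intro j
    have e : (fun i => s (v i)) = ∑ i, s (v i) • (Pi.single i 1 : Fin (n + 1) → A) := by
      ext1 i; simp [Finset.sum_apply, Pi.single_apply]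
    have := congrFun hv j
    simp only [g, Matrix.vecMulLinear_apply, Matrix.vecMul, dotProduct, Matrix.of_apply,
      Pi.zero_apply] at this
    rw [e, map_sum, Finset.sum_apply, map_sum, ← this]
    refine Finset.sum_congr rfl fun i _ => ?_
    rw [map_smul, Pi.smul_apply, smul_eq_mul, map_mul, pi_s]
  choose m hm using fun j => key (f (fun i => s (v i)) j)
  have h0 : f (((X : A) ^ (∑ j, m j)) • fun i => s (v i)) = 0 := by
    rw [map_smul]
    ext1 j
    rw [Pi.smul_apply, smul_eq_mul,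
      hm j _ (Finset.single_le_sum (fun _ _ => Nat.zero_le _) (Finset.mem_univ j)), hw]
    simp
  rw [← map_zero f] at h0
  ext1 i
  have := congrArg π (congrFun (hf h0) i)
  simpa [pi_X, pi_s] using this

lemma notR : ¬ StrongRankCondition R := by
  rw [strongRankCondition_iff_succ]
  intro h
  let f : (Fin 2 → R) →ₗ[R] (Fin 1 → R) :=
    { toFun := fun v _ => v 0 * FreeAlgebra.ι ℤ 0 + v 1 * FreeAlgebra.ι ℤ 1
      map_add' := fun u v => by ext1 j; simp [add_mul]; abel
      map_smul' := fun c v => by ext1 j; simp [mul_add, mul_assoc] }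
  apply h 1 f
  rw [injective_iff_map_eq_zero]
  intro v hv
  let e : R ≃ₐ[ℤ] MonoidAlgebra ℤ (FreeMonoid ℕ) := FreeAlgebra.equivMonoidAlgebraFreeMonoid
  have he : ∀ i, e (FreeAlgebra.ι ℤ i) = MonoidAlgebra.single (FreeMonoid.of i) 1 := by
    intro i; simp [e, FreeAlgebra.equivMonoidAlgebraFreeMonoid]
  have h1 : e (v 0) * MonoidAlgebra.single (FreeMonoid.of 0) 1 +
      e (v 1) * MonoidAlgebra.single (FreeMonoid.of 1) 1 = 0 := by
    rw [← he, ← he, ← map_mul, ← map_mul, ← map_add, ← map_zero e]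
    exact congrArg e (congrFun hv 0)
  have ne : ∀ (a b : ℕ) (d w : FreeMonoid ℕ), a ≠ b → d * FreeMonoid.of a ≠ w * FreeMonoid.of b := by
    intro a b d w hab hh
    have := congrArg (fun l => (FreeMonoid.toList l).getLast?) hh
    simp at this
    exact hab this
  ext1 i
  apply e.injective
  rw [Pi.zero_apply, map_zero]
  ext w
  fin_cases i
  · have := congrArg (fun x => x.coeff (w * FreeMonoid.of 0)) h1
    simpa [MonoidAlgebra.coeff_mul_single_of_forall_mul_ne _ _ fun d => ne 1 0 d w (by decide)]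
      using this
  · have := congrArg (fun x => x.coeff (w * FreeMonoid.of 1)) h1
    simpa [MonoidAlgebra.coeff_mul_single_of_forall_mul_ne _ _ fun d => ne 0 1 d w (by decide)]
      using this

theorem result : ∃ (R : Type) (_ : Ring R) (_ : MulSemiringAction (Multiplicative ℕ) R),
    Function.Surjective (φ (R := R)) ∧ StrongRankCondition (SkewPolynomial R) ∧
      ¬ StrongRankCondition R := by
  refine ⟨R, inferInstance, act, ?_, srcA, notR⟩
  intro r
  obtain ⟨t, ht⟩ := sig_surj r
  exact ⟨t, by simpa [ht] using phi_it 1 t⟩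

end Pool.Agent.Results.MP_5f6a82_al.Counter
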